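import Pool.Agent.Q254.CSwap.Steps

set_option autoImplicit false

/-!
MP_84806a_co, Q1: the chord swap graph `G_{n,g}` with `n = 2g + 1` has diameter at most `12 g`, so the
conjectured lower bound `c (n + g²) ≤ D(n, g)` is false.
-/

namespace Pool.Agent.Results.MP_84806a_co.LinearDiameter

open Pool.Agent.Q254.CSwap

theorem reach_two {n m : ℕ} {X Y : ChordDiagram n} (h : Reach m X Y) (hX : X.vertexCount = 2) :
    Y.vertexCount = 2 := by
  induction h with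
  | refl => exact hX
  | step _ _ h3 _ => exact h3

theorem genus_iff {g : ℕ} (X : ChordDiagram (2 * g + 1)) : X.HasGenus g ↔ X.vertexCount = 2 := by
  unfold ChordDiagram.HasGenus
  constructor <;> intro h <;> omega

theorem mem_set {g : ℕ} (X : {X : ChordDiagram (2 * g + 1) // X.HasGenus g}) :
    X ∈ {X : {X : ChordDiagram (2 * g + 1) // X.HasGenus g} | ¬ (2 * g = 2 * g + 1 ∧ X.1.IsBolza)} := by
  simp only [Set.mem_setOf_eq]
  rintro ⟨h, -⟩
  omega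

theorem edist_of_reach {g m : ℕ} {X Y : ChordDiagram (2 * g + 1)} (h : Reach m X Y)
    (hX : X.HasGenus g) (hY : Y.HasGenus g) :
    ((swapGraph (2 * g + 1) g).induce {X | ¬ (2 * g = 2 * g + 1 ∧ X.1.IsBolza)}).edist
      ⟨⟨X, hX⟩, mem_set _⟩ ⟨⟨Y, hY⟩, mem_set _⟩ ≤ m := by
  induction h with
  | refl m X => simp
  | @step m X Y Z h1 h2 h3 ih =>
    have hY' : Y.HasGenus g := (genus_iff Y).2 (reach_two h1 ((genus_iff X).1 hX))
    have e1 := ih hX hY'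
    have e2 : ((swapGraph (2 * g + 1) g).induce
        {X | ¬ (2 * g = 2 * g + 1 ∧ X.1.IsBolza)}).edist
        ⟨⟨Y, hY'⟩, mem_set _⟩ ⟨⟨Z, hY⟩, mem_set _⟩ ≤ 1 := by
      rw [SimpleGraph.edist_le_one_iff_adj_or_eq]
      by_cases hYZ : Y = Z
      · right
        subst hYZ
        rfl
      · left
        refine ⟨fun hh => hYZ ?_, h2⟩
        exact congrArg Subtype.val hh
    calc _ ≤ _ := SimpleGraph.edist_triangle (v := ⟨⟨Y, hY'⟩, mem_set _⟩)
      _ ≤ (m : ℕ∞) + 1 := add_le_add e1 e2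
      _ = ((m + 1 : ℕ) : ℕ∞) := by push_cast; rfl

theorem diam_le (g : ℕ) : diam (2 * g + 1) g ≤ ((12 * g : ℕ) : ℕ∞) := by
  unfold diam
  rw [SimpleGraph.ediam_le_iff]
  rintro ⟨⟨X, hX⟩, hX'⟩ ⟨⟨Y, hY⟩, hY'⟩
  obtain ⟨T, rT, vT, dT⟩ := all_handles ((genus_iff X).1 hX) g le_rfl
  obtain ⟨U, rU, vU, dU⟩ := all_handles ((genus_iff Y).1 hY) g le_rfl
  have hTU := unique_final dT dU
  subst hTU
  have hT : T.HasGenus g := (genus_iff T).2 vT
  have e1 := edist_of_reach rT hX hT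
  have e2 := edist_of_reach rU hY hT
  calc _ ≤ _ := SimpleGraph.edist_triangle (v := ⟨⟨T, hT⟩, mem_set _⟩)
    _ ≤ ((6 * g : ℕ) : ℕ∞) + ((6 * g : ℕ) : ℕ∞) :=
        add_le_add e1 (by rw [SimpleGraph.edist_comm]; exact e2)
    _ = ((12 * g : ℕ) : ℕ∞) := by rw [← Nat.cast_add]; congr 1; ring

/-- For all `g`, any two chord diagrams with `2g + 1` chords and genus `g` are joined by a path of at
most `12 g` genus-preserving chord swaps: `D(2g + 1, g) ≤ 12 g`.  Consequently, for every `c > 0` there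
are `n ≥ 3` and `0 ≤ g ≤ n / 2` with `D(n, g) < c (n + g²)`. -/
theorem result :
    (∀ g : ℕ, diam (2 * g + 1) g ≤ ((12 * g : ℕ) : ℕ∞)) ∧
    ∀ c : ℝ, 0 < c → ∃ n g : ℕ, 3 ≤ n ∧ 2 * g ≤ n ∧
      ∃ d : ℕ, diam n g = (d : ℕ∞) ∧ (d : ℝ) < c * ((n : ℝ) + (g : ℝ) ^ 2) := by
  refine ⟨diam_le, fun c hc => ?_⟩
  obtain ⟨g, hg⟩ := exists_nat_gt (12 / c)
  have hgpos : (0 : ℝ) < g := lt_trans (by positivity) hg
  have hg1 : 1 ≤ g := by exact_mod_cast hgpos
  have hle := diam_le g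
  obtain ⟨d, hd, hdle⟩ := (ENat.le_coe_iff).1 hle
  refine ⟨2 * g + 1, g, by omega, by omega, d, hd, ?_⟩
  have h1 : (d : ℝ) ≤ 12 * g := by exact_mod_cast hdle
  have h2 : 12 < c * g := by
    rw [div_lt_iff₀ hc] at hg
    linarith
  have h3 : (12 : ℝ) * g < c * g * g := by nlinarith
  have h4 : (0 : ℝ) < c * ((2 * g + 1 : ℕ) : ℝ) := by positivity
  calc (d : ℝ) ≤ 12 * g := h1
    _ < c * g * g := h3
    _ < c * (((2 * g + 1 : ℕ) : ℝ) + (g : ℝ) ^ 2) := by nlinarith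

end Pool.Agent.Results.MP_84806a_co.LinearDiameter
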